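import Mathlib

/-!
# The section conjecture and closed points of bounded degree

Let `X` be a hyperbolic curve over a number field `k` (smooth, geometrically connected; for the
problem: projective of genus at least two) and let `s` be a section of `π₁(X) → G_k`.  An open
subgroup `H` of `π₁(X)` which contains the image `S` of `s` is a finite étale cover `X_H → X`,
geometrically connected over `k`, together with a lift of `s` to a section of `X_H`
(a *neighbourhood* of `s`).

It is well known (Tamagawa) that `s` belongs to a rational point of `X` if and only if every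
neighbourhood of `s` has a rational point.  We show that points of *bounded degree* suffice:
`s` belongs to a rational point if and only if for some number `D` every neighbourhood of `s` has a
closed point of degree at most `D`.

## The model

`P` is the profinite group `π₁(X)`, `geom` its closed normal subgroup `π₁(X_k̄)`, and `T` is the set
of points of the universal pro-étale cover of `X_k̄`, on which `P` acts.  The group `geom` acts freely
on `T`; for an open subgroup `H` of `P` the points of `X_H` over `k̄` are the orbits of `geom ⊓ H` in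
`T`.  The stabilizers in `P` of the elements of `T` are the decomposition groups; a section with image
`S` belongs to the rational point below `t` if and only if `S` is the stabilizer of `t`.
-/

set_option autoImplicit false

universe u v

namespace Pool.Agent.Results.MP_c1dca2_ag.BoundedDegree

open MulAction

/-- The fundamental group `P = π₁(X)` of a curve `X` over a field `k` together with its action on the
set `T` of points of the universal pro-étale cover of `X_k̄`. -/
structure Curve (P : Type u) (T : Type v) [Group P] [TopologicalSpace P] [MulAction P T] where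
  /-- the geometric fundamental group `π₁(X_k̄)`, the kernel of `π₁(X) → G_k` -/
  geom : Subgroup P
  normal : geom.Normal
  isClosed_geom : IsClosed (geom : Set P)
  /-- `π₁(X_k̄)` acts freely on the universal cover -/
  free : ∀ n ∈ geom, ∀ t : T, n • t = t → n = 1
  /-- decomposition groups are closed -/
  isClosed_stabilizer : ∀ t : T, IsClosed (stabilizer P t : Set P)

variable {P : Type u} {T : Type v} [Group P] [TopologicalSpace P] [MulAction P T]

/-- The point of `X_H` over `k̄` below `t`, given by the set of the points of the universal cover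
above it. -/
def Curve.point (C : Curve P T) (H : Subgroup P) (t : T) : Set T :=
  {x | ∃ n ∈ C.geom ⊓ H, n • t = x}

/-- The degree of the closed point of `X_H` below `t`: the number of its conjugates under the Galois
group `G_k ≅ S`; here `S` is the image of a section and `S ≤ H`. -/
noncomputable def Curve.degree (C : Curve P T) (S H : Subgroup P) (t : T) : ℕ∞ :=
  (Set.range fun σ : S => C.point H ((σ : P) • t)).encard

/-- `S` is the image of a section of `π₁(X) → G_k`. -/
def Curve.IsSection (C : Curve P T) (S : Subgroup P) : Prop :=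
  IsClosed (S : Set P) ∧ S ⊓ C.geom = ⊥ ∧ S ⊔ C.geom = ⊤

/-- `S'` is the image of a section of `π₁(X_k') → G_k'` for some finite extension `k'` of `k`. -/
def Curve.IsPartialSection (C : Curve P T) (S' : Subgroup P) : Prop :=
  IsClosed (S' : Set P) ∧ S' ⊓ C.geom = ⊥ ∧ (S' ⊔ C.geom).FiniteIndex

/-- Known theorem (Grothendieck): for all finite extensions `k'` of `k` and all finite étale covers
`X_H` of `X`, the profinite Kummer map is injective on the `k'`-points of `X_H`: if the
section `S'` of `X_H` over `k'` belongs to the points below `t` and below `t'`, they are equal. -/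
def Curve.KummerInjective (C : Curve P T) : Prop :=
  ∀ H : Subgroup P, IsOpen (H : Set P) → ∀ S' : Subgroup P, C.IsPartialSection S' → S' ≤ H →
    ∀ t t' : T, (∀ σ ∈ S', σ • t = t) → (∀ σ ∈ S', σ • t' = t') → C.point H t = C.point H t'

/-- Known theorem (Faltings, Frey): for every `D` some neighbourhood of the section `S` has only
finitely many closed points of degree at most `D`.  (By Frey a curve over a number field has only
finitely many closed points of degree at most `D` if its gonality is greater than `2 D`, and the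
gonality of the neighbourhoods is unbounded.) -/
def Curve.FinitelyManyPoints (C : Curve P T) (S : Subgroup P) : Prop :=
  ∀ D : ℕ, ∃ H : Subgroup P, IsOpen (H : Set P) ∧ S ≤ H ∧
    {q : Set T | ∃ t, q = C.point H t ∧ C.degree S H t ≤ D}.Finite

/-- The section with image `S` belongs to a rational point of `X`. -/
def Curve.FromRationalPoint (_C : Curve P T) (S : Subgroup P) : Prop :=
  ∃ t : T, S = stabilizer P t

namespace Curve

variable (C : Curve P T)

lemma mem_point {H : Subgroup P} {t x : T} : x ∈ C.point H t ↔ ∃ n ∈ C.geom ⊓ H, n • t = x :=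
  Iff.rfl

lemma self_mem (H : Subgroup P) (t : T) : t ∈ C.point H t := ⟨1, one_mem _, one_smul _ _⟩

lemma point_smul {H : Subgroup P} {m : P} (hm : m ∈ C.geom ⊓ H) (t : T) :
    C.point H (m • t) = C.point H t := by
  ext x
  constructor
  · rintro ⟨n, hn, rfl⟩
    exact ⟨n * m, mul_mem hn hm, mul_smul _ _ _⟩
  · rintro ⟨n, hn, rfl⟩
    exact ⟨n * m⁻¹, mul_mem hn (inv_mem hm), by rw [mul_smul, inv_smul_smul]⟩

lemma point_eq_iff {H : Subgroup P} {t t' : T} :
    C.point H t = C.point H t' ↔ ∃ n ∈ C.geom ⊓ H, n • t' = t := by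
  constructor
  · intro h
    have := C.self_mem H t
    rw [h] at this
    exact this
  · rintro ⟨n, hn, rfl⟩
    exact C.point_smul hn t'

lemma point_mono {H H' : Subgroup P} (h : H ≤ H') {t t' : T} (e : C.point H t = C.point H t') :
    C.point H' t = C.point H' t' := by
  obtain ⟨n, hn, rfl⟩ := C.point_eq_iff.1 e
  exact C.point_smul ⟨hn.1, h hn.2⟩ t'

lemma degree_mono {S H H' : Subgroup P} (h : H ≤ H') (t : T) :
    C.degree S H' t ≤ C.degree S H t := by
  classical
  -- the map from points of `X_H` to points of `X_H'`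
  have : (Set.range fun σ : S => C.point H' ((σ : P) • t)) =
      (fun q : Set T => ⋃ x ∈ q, C.point H' x) '' (Set.range fun σ : S => C.point H ((σ : P) • t)) := by
    rw [← Set.range_comp]
    congr 1
    funext σ
    simp only [Function.comp]
    ext y
    simp only [Set.mem_iUnion]
    constructor
    · intro hy
      exact ⟨(σ : P) • t, C.self_mem H _, hy⟩
    · rintro ⟨x, hx, hy⟩
      obtain ⟨n, hn, rfl⟩ := hx
      rwa [C.point_smul ⟨hn.1, h hn.2⟩] at hy
  unfold degree
  rw [this]
  exact Set.encard_image_le _ _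

lemma degree_congr {S H : Subgroup P} (hSH : S ≤ H) {t t' : T} (e : C.point H t = C.point H t') :
    C.degree S H t = C.degree S H t' := by
  obtain ⟨n, hn, rfl⟩ := C.point_eq_iff.1 e
  unfold degree
  congr 2
  funext σ
  have : (σ : P) • n • t' = ((σ : P) * n * (σ : P)⁻¹) • (σ : P) • t' := by
    rw [← mul_smul, ← mul_smul]
    congr 1
    group
  rw [this]
  refine C.point_smul ⟨C.normal.conj_mem n hn.1 _, ?_⟩ _
  exact H.mul_mem (H.mul_mem (hSH σ.2) hn.2) (H.inv_mem (hSH σ.2))

/-- finite intersections of neighbourhoods -/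
lemma exists_common {ι : Type*} {S : Subgroup P} {s : Set ι} (hs : s.Finite) (A : ι → Subgroup P)
    (hA : ∀ i ∈ s, IsOpen (A i : Set P)) (hS : ∀ i ∈ s, S ≤ A i) :
    ∃ H : Subgroup P, IsOpen (H : Set P) ∧ S ≤ H ∧ ∀ i ∈ s, H ≤ A i := by
  refine ⟨⨅ i ∈ s, A i, ?_, ?_, ?_⟩
  · have : ((⨅ i ∈ s, A i : Subgroup P) : Set P) = ⋂ i ∈ s, (A i : Set P) := by
      simp [Subgroup.coe_iInf]
    rw [this]
    exact hs.isOpen_biInter hA
  · exact le_iInf₂ hS
  · exact fun i hi => iInf₂_le i hi

section profinite

variable [IsTopologicalGroup P] [CompactSpace P] [TotallyDisconnectedSpace P]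

/-- Two points of the universal cover with the same image in all neighbourhoods are equal. -/
lemma separated {S : Subgroup P} (hS : C.IsSection S) {x y : T}
    (h : ∀ H : Subgroup P, IsOpen (H : Set P) → S ≤ H → C.point H x = C.point H y) : x = y := by
  obtain ⟨m, hm, hmx⟩ := C.point_eq_iff.1 (h ⊤ (by simp) le_top)
  have key : ∀ H : Subgroup P, IsOpen (H : Set P) → S ≤ H → m ∈ H := by
    intro H hH hSH
    obtain ⟨m', hm', hmx'⟩ := C.point_eq_iff.1 (h H hH hSH)
    have h1 : (m'⁻¹ * m) • y = y := by
      rw [mul_smul, hmx, ← hmx', inv_smul_smul]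
    have h2 : m'⁻¹ * m = 1 :=
      C.free _ (C.geom.mul_mem (C.geom.inv_mem hm'.1) hm.1) y h1
    have h3 : m = m' := by
      rw [inv_mul_eq_one] at h2
      exact h2.symm
    rw [h3]
    exact hm'.2
  have hmS : m ∈ S := by
    have e := ProfiniteGrp.closedSubgroup_eq_sInf_open (⟨S, hS.1⟩ : ClosedSubgroup P)
    have e' : S = sInf {N : Subgroup P | IsOpen (N : Set P) ∧ S ≤ N} := e
    rw [e', Subgroup.mem_sInf]
    exact fun N hN => key N hN.1 hN.2
  have : m ∈ S ⊓ C.geom := ⟨hmS, hm.1⟩
  rw [hS.2.1, Subgroup.mem_bot] at this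
  rw [← hmx, this, one_smul]

/-- If the closed points below `t` on all neighbourhoods have degree at most `D`, the conjugates of
`t` are finite in number. -/
lemma finite_orbit {S : Subgroup P} (hS : C.IsSection S) {t : T} {D : ℕ}
    (h : ∀ H : Subgroup P, IsOpen (H : Set P) → S ≤ H → C.degree S H t ≤ D) :
    (Set.range fun σ : S => (σ : P) • t).Finite := by
  classical
  by_contra hinf
  obtain ⟨s, hs, hcard⟩ := Set.exists_subset_encard_eq
    (s := Set.range fun σ : S => (σ : P) • t) (k := ((D + 1 : ℕ) : ℕ∞)) (by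
      rw [Set.Infinite.encard_eq hinf]
      exact le_top)
  have hsf : s.Finite := Set.finite_of_encard_eq_coe hcard
  have hch : ∀ p : T × T, ∃ H : Subgroup P, IsOpen (H : Set P) ∧ S ≤ H ∧
      (p.1 ≠ p.2 → C.point H p.1 ≠ C.point H p.2) := by
    intro p
    by_cases hp : p.1 = p.2
    · exact ⟨⊤, by simp, le_top, fun h => absurd hp h⟩
    · by_contra hno
      push Not at hno
      exact hp (C.separated hS fun H hH hSH => (hno H hH hSH).2)
  choose A hA1 hA2 hA3 using hch
  obtain ⟨H, hHo, hHS, hHA⟩ := exists_common (S := S) (hsf.prod hsf) A (fun i _ => hA1 i)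
    (fun i _ => hA2 i)
  have hinj : Set.InjOn (C.point H) s := by
    intro x hx y hy hxy
    by_contra hne
    exact hA3 (x, y) hne (C.point_mono (hHA (x, y) ⟨hx, hy⟩) hxy)
  have h1 : (C.point H '' s).encard = ((D + 1 : ℕ) : ℕ∞) := by
    rw [hinj.encard_image, hcard]
  have h2 : C.point H '' s ⊆ Set.range fun σ : S => C.point H ((σ : P) • t) := by
    rintro _ ⟨x, hx, rfl⟩
    obtain ⟨σ, rfl⟩ := hs hx
    exact ⟨σ, rfl⟩
  have h3 := (Set.encard_le_encard h2).trans (h H hHo hHS)
  rw [h1] at h3
  have : D + 1 ≤ D := by exact_mod_cast h3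
  omega

omit [TopologicalSpace P] [IsTopologicalGroup P] [CompactSpace P] [TotallyDisconnectedSpace P] in
/-- If `S'` has finite index in `S` and `S` maps onto `G_k`, then `S'` belongs to a finite extension
of `k`. -/
lemma finiteIndex_sup {S S' N : Subgroup P} (hN : N.Normal) (hS : S ⊔ N = ⊤)
    (h : (S'.subgroupOf S).index ≠ 0) : (S' ⊔ N).FiniteIndex := by
  let f : S →* P ⧸ N := (QuotientGroup.mk' N).comp S.subtype
  have hf : Function.Surjective f := by
    intro q
    obtain ⟨p, rfl⟩ := QuotientGroup.mk'_surjective N q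
    have hp : p ∈ S ⊔ N := by rw [hS]; trivial
    rw [Subgroup.mem_sup_of_normal_right] at hp
    obtain ⟨s, hs, n, hn, rfl⟩ := hp
    refine ⟨⟨s, hs⟩, ?_⟩
    change (QuotientGroup.mk' N) s = (QuotientGroup.mk' N) (s * n)
    rw [map_mul, (QuotientGroup.eq_one_iff n).2 hn |> fun e => (show (QuotientGroup.mk' N) n = 1 from e),
      mul_one]
  have h1 : ((S'.subgroupOf S).map f).index ≠ 0 := by
    intro h0
    have := Subgroup.index_map_dvd (H := S'.subgroupOf S) hf
    rw [h0, zero_dvd_iff] at this
    exact h this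
  have h2 : (((S'.subgroupOf S).map f).comap (QuotientGroup.mk' N)).index ≠ 0 := by
    rw [Subgroup.index_comap_of_surjective _ (QuotientGroup.mk'_surjective N)]
    exact h1
  have h3 : ((S'.subgroupOf S).map f).comap (QuotientGroup.mk' N) ≤ S' ⊔ N := by
    intro p hp
    rw [Subgroup.mem_comap, Subgroup.mem_map] at hp
    obtain ⟨σ, hσ, e⟩ := hp
    have hσ' : (σ : P) ∈ S' := hσ
    have e' : ((σ : P) : P ⧸ N) = (p : P ⧸ N) := e
    rw [QuotientGroup.eq] at e'
    have : p = (σ : P) * ((σ : P)⁻¹ * p) := by group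
    rw [this]
    exact Subgroup.mul_mem_sup hσ' e'
  have : (((S'.subgroupOf S).map f).comap (QuotientGroup.mk' N)).FiniteIndex := ⟨h2⟩
  exact Subgroup.finiteIndex_of_le h3

/-- **Galois descent.** A point of the universal cover with finitely many conjugates is fixed by the
section. -/
lemma fixed_of_finite_orbit (hK : C.KummerInjective) {S : Subgroup P} (hS : C.IsSection S) {t : T}
    (hfin : (Set.range fun σ : S => (σ : P) • t).Finite) (σ : P) (hσ : σ ∈ S) : σ • t = t := by
  set t' : T := σ • t with ht'
  let S' : Subgroup P := S ⊓ stabilizer P t ⊓ stabilizer P t'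
  have hle : S' ≤ S := fun x hx => hx.1.1
  have horb : ∀ x : T, x ∈ (Set.range fun σ : S => (σ : P) • t) → (orbit S x).Finite := by
    rintro _ ⟨τ, rfl⟩
    refine hfin.subset ?_
    rintro _ ⟨ρ, rfl⟩
    exact ⟨ρ * τ, by
      change ((ρ * τ : S) : P) • t = (ρ : P) • (τ : P) • t
      rw [Subgroup.coe_mul, mul_smul]⟩
  have hst : ∀ x : T, (orbit S x).Finite → (stabilizer S x).index ≠ 0 := by
    intro x hx
    rw [MulAction.index_stabilizer]
    exact (Set.ncard_pos hx).2 (nonempty_orbit x) |>.ne'
  have hidx : (S'.subgroupOf S).index ≠ 0 := by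
    have e : S'.subgroupOf S = stabilizer S t ⊓ stabilizer S t' := by
      ext x
      constructor
      · intro hx
        exact ⟨hx.1.2, hx.2⟩
      · intro hx
        exact ⟨⟨x.2, hx.1⟩, hx.2⟩
    rw [e]
    refine Subgroup.index_inf_ne_zero (hst _ (horb _ ⟨1, by simp⟩)) (hst _ (horb _ ⟨⟨σ, hσ⟩, rfl⟩))
  have hpart : C.IsPartialSection S' := by
    refine ⟨?_, ?_, ?_⟩
    · have : (S' : Set P) = (S : Set P) ∩ (stabilizer P t : Set P) ∩ (stabilizer P t' : Set P) := rfl
      rw [this]
      exact (hS.1.inter (C.isClosed_stabilizer t)).inter (C.isClosed_stabilizer t')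
    · rw [eq_bot_iff, ← hS.2.1]
      exact inf_le_inf_right _ hle
    · exact finiteIndex_sup C.normal hS.2.2 hidx
  refine (C.separated hS fun H hH hSH => ?_).symm
  exact hK H hH S' hpart (hle.trans hSH) t t' (fun τ hτ => hτ.1.2) (fun τ hτ => hτ.2)

omit [IsTopologicalGroup P] [CompactSpace P] [TotallyDisconnectedSpace P] in
/-- A section which fixes `t` is the section of the rational point below `t`. -/
lemma eq_stabilizer {S : Subgroup P} (hS : C.IsSection S) {t : T} (h : ∀ σ ∈ S, σ • t = t) :
    S = stabilizer P t := by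
  have := C.normal
  apply le_antisymm (fun σ hσ => h σ hσ)
  intro p hp
  have hp' : p ∈ S ⊔ C.geom := by rw [hS.2.2]; trivial
  rw [Subgroup.mem_sup_of_normal_right] at hp'
  obtain ⟨s, hs, n, hn, rfl⟩ := hp'
  have h1 : s • n • t = t := by rw [← mul_smul]; exact hp
  have h2 : n • t = t := by
    have := h s⁻¹ (S.inv_mem hs)
    rw [← h1, inv_smul_smul] at this
    exact this.trans h1.symm.symm |> fun _ => by
      have h3 := congrArg (fun x => s⁻¹ • x) h1
      simp only [inv_smul_smul] at h3
      rw [h3]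
      exact h s⁻¹ (S.inv_mem hs)
  rw [C.free n hn t h2, mul_one]
  exact hs

omit [TotallyDisconnectedSpace P] in
/-- The compactness argument. -/
lemma exists_point {S : Subgroup P} (hF : C.FinitelyManyPoints S) {D : ℕ}
    (h : ∀ H : Subgroup P, IsOpen (H : Set P) → S ≤ H → ∃ t, C.degree S H t ≤ D) :
    ∃ t, ∀ H : Subgroup P, IsOpen (H : Set P) → S ≤ H → C.degree S H t ≤ D := by
  classical
  obtain ⟨H₀, hH₀, hS₀, hfin⟩ := hF D
  -- a point `f` of the universal cover such that the point of `X_{H₀}` below it lifts everywhere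
  have hf : ∃ f : T, ∀ H : Subgroup P, IsOpen (H : Set P) → S ≤ H →
      ∃ t, C.point H₀ t = C.point H₀ f ∧ C.degree S H t ≤ D := by
    by_contra hno
    push Not at hno
    have hch : ∀ q : Set T, ∃ H : Subgroup P, IsOpen (H : Set P) ∧ S ≤ H ∧
        ∀ t, C.point H₀ t = q → ¬ C.degree S H t ≤ D := by
      intro q
      by_cases hq : ∃ f, C.point H₀ f = q
      · obtain ⟨f, rfl⟩ := hq
        obtain ⟨H, h1, h2, h3⟩ := hno f
        exact ⟨H, h1, h2, fun t ht => not_le.2 (h3 t ht)⟩
      · exact ⟨⊤, by simp, le_top, fun t ht => absurd ⟨t, ht⟩ hq⟩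
    choose A hA1 hA2 hA3 using hch
    obtain ⟨H, hHo, hHS, hHA⟩ := exists_common (S := S) hfin A (fun i _ => hA1 i) (fun i _ => hA2 i)
    obtain ⟨t, ht⟩ := h (H ⊓ H₀) (hHo.inter hH₀) (le_inf hHS hS₀)
    have hmem : C.point H₀ t ∈ {q : Set T | ∃ t, q = C.point H₀ t ∧ C.degree S H₀ t ≤ D} :=
      ⟨t, rfl, (C.degree_mono inf_le_right t).trans ht⟩
    refine hA3 _ t rfl ((C.degree_mono (hHA _ hmem) t).trans ((C.degree_mono inf_le_left t).trans ht))
  obtain ⟨f, hf⟩ := hf
  let ι := {H : Subgroup P // IsOpen (H : Set P) ∧ S ≤ H}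
  let B : ι → Set P := fun H => {n | n ∈ C.geom ⊓ H₀ ∧ C.degree S H.1 (n • f) ≤ D}
  have hBne : ∀ H, (B H).Nonempty := by
    intro H
    obtain ⟨t, ht, hd⟩ := hf H.1 H.2.1 H.2.2
    obtain ⟨n, hn, rfl⟩ := C.point_eq_iff.1 ht
    exact ⟨n, hn, hd⟩
  have hBc : ∀ H, IsClosed (B H) := by
    intro H
    have hc0 : IsClosed ((C.geom ⊓ H₀ : Subgroup P) : Set P) := by
      have : ((C.geom ⊓ H₀ : Subgroup P) : Set P) = (C.geom : Set P) ∩ (H₀ : Set P) := rfl
      rw [this]
      exact C.isClosed_geom.inter (Subgroup.isClosed_of_isOpen H₀ hH₀)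
    rw [← isOpen_compl_iff, isOpen_iff_mem_nhds]
    intro x hx
    by_cases hx0 : x ∈ C.geom ⊓ H₀
    · -- the coset `(H ⊓ H₀) x` is a neighbourhood of `x` in the complement
      have hopen : IsOpen ((fun y : P => y * x⁻¹) ⁻¹' ((H.1 : Set P))) :=
        H.2.1.preimage (continuous_mul_const x⁻¹)
      refine Filter.mem_of_superset (hopen.mem_nhds (by
        change x * x⁻¹ ∈ H.1
        rw [mul_inv_cancel]; exact one_mem _)) ?_
      intro y hy hyB
      apply hx
      refine ⟨hx0, ?_⟩
      have hyx : y * x⁻¹ ∈ C.geom ⊓ H.1 :=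
        ⟨C.geom.mul_mem hyB.1.1 (C.geom.inv_mem hx0.1), hy⟩
      have e : C.point H.1 (y • f) = C.point H.1 (x • f) := by
        have : y • f = (y * x⁻¹) • x • f := by rw [mul_smul, inv_smul_smul]
        rw [this]
        exact C.point_smul hyx _
      rw [← C.degree_congr H.2.2 e]
      exact hyB.2
    · refine Filter.mem_of_superset (hc0.isOpen_compl.mem_nhds hx0) ?_
      intro y hy hyB
      exact hy hyB.1
  have : Nonempty ι := ⟨⟨⊤, by simp, le_top⟩⟩
  have hdir : Directed (· ⊇ ·) B := by
    intro H H'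
    refine ⟨⟨H.1 ⊓ H'.1, H.2.1.inter H'.2.1, le_inf H.2.2 H'.2.2⟩, ?_, ?_⟩
    · intro n hn
      exact ⟨hn.1, (C.degree_mono inf_le_left _).trans hn.2⟩
    · intro n hn
      exact ⟨hn.1, (C.degree_mono inf_le_right _).trans hn.2⟩
  obtain ⟨n, hn⟩ := IsCompact.nonempty_iInter_of_directed_nonempty_isCompact_isClosed B hdir hBne
    (fun H => (hBc H).isCompact) hBc
  rw [Set.mem_iInter] at hn
  exact ⟨n • f, fun H hH hSH => (hn ⟨H, hH, hSH⟩).2⟩

omit [IsTopologicalGroup P] [CompactSpace P] [TotallyDisconnectedSpace P] in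
lemma degree_le_one {S : Subgroup P} (h : C.FromRationalPoint S) (H : Subgroup P) :
    ∃ t, C.degree S H t ≤ (1 : ℕ) := by
  obtain ⟨t, ht⟩ := h
  refine ⟨t, ?_⟩
  unfold degree
  have : (Set.range fun σ : S => C.point H ((σ : P) • t)) ⊆ {C.point H t} := by
    rintro _ ⟨σ, rfl⟩
    have : (σ : P) • t = t := ht.le σ.2
    simp [this]
  refine (Set.encard_le_encard this).trans ?_
  simp

/-- **Main theorem for one section.** -/
theorem fromRationalPoint_iff (hK : C.KummerInjective) {S : Subgroup P} (hS : C.IsSection S)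
    (hF : C.FinitelyManyPoints S) :
    C.FromRationalPoint S ↔ ∃ D : ℕ, ∀ H : Subgroup P, IsOpen (H : Set P) → S ≤ H →
      ∃ t, C.degree S H t ≤ D := by
  constructor
  · intro h
    exact ⟨1, fun H _ _ => C.degree_le_one h H⟩
  · rintro ⟨D, hD⟩
    obtain ⟨t, ht⟩ := C.exists_point hF hD
    exact ⟨t, C.eq_stabilizer hS (C.fixed_of_finite_orbit hK hS (C.finite_orbit hS ht))⟩

end profinite

end Curve

/-- A curve together with a section. -/
structure CurveWithSection where
  /-- the fundamental group `π₁(X)` -/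
  P : Type u
  /-- the points of the universal pro-étale cover of `X_k̄` -/
  T : Type v
  [group : Group P]
  [topology : TopologicalSpace P]
  [action : MulAction P T]
  [topologicalGroup : IsTopologicalGroup P]
  [compact : CompactSpace P]
  [totallyDisconnected : TotallyDisconnectedSpace P]
  /-- the curve `X` -/
  C : Curve P T
  /-- the image of the section -/
  S : Subgroup P
  isSection : C.IsSection S

attribute [instance] CurveWithSection.group CurveWithSection.topology CurveWithSection.action
  CurveWithSection.topologicalGroup CurveWithSection.compact CurveWithSection.totallyDisconnected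

/-- The finite étale cover `X_H` of `X`. -/
def Curve.cover (C : Curve P T) (H : Subgroup P) : Curve H T where
  geom := C.geom.subgroupOf H
  normal := by
    have := C.normal
    infer_instance
  isClosed_geom := C.isClosed_geom.preimage continuous_subtype_val
  free := fun n hn t ht => Subtype.ext (C.free n.1 hn t ht)
  isClosed_stabilizer := fun t => (C.isClosed_stabilizer t).preimage continuous_subtype_val

/-- The neighbourhood `X_H` of a section, with the lifted section. -/
def CurveWithSection.neighbourhood (X : CurveWithSection.{u, v}) (H : Subgroup X.P)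
    (hH : IsOpen (H : Set X.P)) (hS : X.S ≤ H) : CurveWithSection.{u, v} :=
  have : CompactSpace H := isCompact_iff_compactSpace.1 (Subgroup.isClosed_of_isOpen H hH).isCompact
  { P := H
    T := X.T
    C := X.C.cover H
    S := X.S.subgroupOf H
    isSection := by
      refine ⟨X.isSection.1.preimage continuous_subtype_val, ?_, ?_⟩
      · rw [eq_bot_iff]
        intro x hx
        have : (x : X.P) ∈ X.S ⊓ X.C.geom := ⟨hx.1, hx.2⟩
        rw [X.isSection.2.1, Subgroup.mem_bot] at this
        exact Subtype.ext this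
      · rw [eq_top_iff]
        intro x _
        have := X.C.normal
        have hx : (x : X.P) ∈ X.S ⊔ X.C.geom := by rw [X.isSection.2.2]; trivial
        rw [Subgroup.mem_sup_of_normal_right] at hx
        obtain ⟨s, hs, n, hn, e⟩ := hx
        have hnH : n ∈ H := by
          have : n = s⁻¹ * x := by rw [← e]; group
          rw [this]
          exact H.mul_mem (H.inv_mem (hS hs)) x.2
        have : x = (⟨s, hS hs⟩ : H) * ⟨n, hnH⟩ := Subtype.ext e.symm
        rw [this]
        exact Subgroup.mul_mem_sup hs hn }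

/-- The curve has a closed point of degree at most `D`. -/
def CurveWithSection.HasPoint (X : CurveWithSection.{u, v}) (D : ℕ) : Prop :=
  ∃ t : X.T, X.C.degree X.S ⊤ t ≤ D

lemma hasPoint_neighbourhood {X : CurveWithSection.{u, v}} {H : Subgroup X.P}
    {hH : IsOpen (H : Set X.P)} {hS : X.S ≤ H} {D : ℕ} (h : (X.neighbourhood H hH hS).HasPoint D) :
    ∃ t, X.C.degree X.S H t ≤ D := by
  obtain ⟨t, ht⟩ := h
  refine ⟨t, le_trans ?_ ht⟩
  unfold Curve.degree
  apply Set.encard_le_encard
  rintro _ ⟨σ, rfl⟩
  refine ⟨⟨⟨σ.1, hS σ.2⟩, σ.2⟩, ?_⟩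
  ext x
  constructor
  · rintro ⟨n, hn, rfl⟩
    exact ⟨n.1, ⟨hn.1, n.2⟩, rfl⟩
  · rintro ⟨n, hn, rfl⟩
    exact ⟨⟨n, hn.2⟩, ⟨hn.1, trivial⟩, rfl⟩

/-- Let `𝒞` be a class of curves with sections which contains with `(X, s)` all neighbourhoods of `s`,
for instance all curves of genus at least two over a number field `k` with all their sections.
The following are equivalent:
(1) every section in `𝒞` belongs to a rational point;
(2) for some `D` every curve in `𝒞` has a closed point of degree at most `D`;
(3) for every `(X, s)` in `𝒞` there is `D` such that all neighbourhoods of `s` have closed points of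
degree at most `D`. -/
theorem result (𝒞 : Set CurveWithSection.{u, v})
    (closed : ∀ X ∈ 𝒞, ∀ (H : Subgroup X.P) (hH : IsOpen (H : Set X.P)) (hS : X.S ≤ H),
      X.neighbourhood H hH hS ∈ 𝒞)
    (kummer : ∀ X ∈ 𝒞, X.C.KummerInjective)
    (frey : ∀ X ∈ 𝒞, X.C.FinitelyManyPoints X.S) :
    ((∀ X ∈ 𝒞, X.C.FromRationalPoint X.S) ↔ ∃ D : ℕ, ∀ X ∈ 𝒞, X.HasPoint D) ∧
    ((∀ X ∈ 𝒞, X.C.FromRationalPoint X.S) ↔
      ∀ X ∈ 𝒞, ∃ D : ℕ, ∀ (H : Subgroup X.P) (hH : IsOpen (H : Set X.P)) (hS : X.S ≤ H),
        (X.neighbourhood H hH hS).HasPoint D) := by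
  have key : (∀ X ∈ 𝒞, ∃ D : ℕ, ∀ (H : Subgroup X.P) (hH : IsOpen (H : Set X.P)) (hS : X.S ≤ H),
        (X.neighbourhood H hH hS).HasPoint D) → ∀ X ∈ 𝒞, X.C.FromRationalPoint X.S := by
    intro h X hX
    obtain ⟨D, hD⟩ := h X hX
    exact (X.C.fromRationalPoint_iff (kummer X hX) X.isSection (frey X hX)).2
      ⟨D, fun H hH hS => hasPoint_neighbourhood (hD H hH hS)⟩
  have one : (∀ X ∈ 𝒞, X.C.FromRationalPoint X.S) → ∀ X ∈ 𝒞, X.HasPoint 1 :=
    fun h X hX => X.C.degree_le_one (h X hX) ⊤
  refine ⟨⟨fun h => ⟨1, one h⟩, fun ⟨D, hD⟩ => key fun X hX => ⟨D, fun H hH hS =>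
    hD _ (closed X hX H hH hS)⟩⟩, ⟨fun h X hX => ⟨1, fun H hH hS =>
    one h _ (closed X hX H hH hS)⟩, key⟩⟩

end Pool.Agent.Results.MP_c1dca2_ag.BoundedDegree
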