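import Pool.Agent.TH120.Sec.Diag
import Pool.Agent.TH120.Sec.DiagCount
import Pool.Agent.TH120.Sec.Split

/-!
# The section conjecture for 100% of the diagonal curves of every type

Let `K` be a number field and let `n, m` be positive integers which are not coprime, and not both
equal to `2`.  Then for all triples `(a, b, c)` of integers of `K` outside a set of density zero,
the smooth projective curve with the affine equation `a yⁿ = b xᵐ + c` (for `n = m` the plane curve
`a yⁿ = b xⁿ + c zⁿ`) has no point over `K`, and its fundamental group has no section, also when any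
set of closed points of the curve is removed.  So these curves, and all smooth curves over `K` that
dominate one of them, satisfy the section conjecture.  (If `n` and `m` are coprime, the curve has a
rational point at infinity; if `n = m = 2`, it is a conic and has a section.)  The set of the
exceptional triples has density zero in a strong sense: for every `ε > 0` there is an ideal `I ≠ 0`
such that the exceptional triples lie in at most `ε #(O_K/I)³` residue classes modulo `I`.

The fundamental group is described through valuations.  Let `U` be a smooth geometrically connected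
curve over `k` with function field `F`, let `Ω` be an algebraic closure of `F`, and let `F_U` be the
maximal extension of `F` inside `Ω` which is unramified over the closed points of `U`, that is, over
their local rings, which are valuation rings of `F`.  Then `π₁(U) = Gal(F_U/F)`, and the map
`π₁(U) → G_k` is the restriction of automorphisms to the algebraic closure of `k` in `Ω`.

Proof.  If `n` and `m` are even, say `m ≥ 4`, one uses primes `v` of odd norm for which `v(a) = 1`,
`v(bc) = 0`, and `-c/b` is not a square modulo `v`.  There the polynomial `b xᵐ + c` has no root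
modulo `v`, and the local theorem for quadratic twists behind
`Pool.Agent.Results.MP_2f3286_ag.QuadraticTwists` applies.  Now let an odd prime number `ℓ` divide
`n` and `m`; one may assume that `n = m = ℓ`.  One uses primes `v` with norm `1` modulo `ℓ`, for
which `v(a) = 1`, `v(bc) = 0`, and `-c/b` is not an `ℓ`-th power modulo `v`.  Let `s` be a section,
and let `S` be the field generated by the roots `θ` of `b x^ℓ + c`; it is unramified at `v`.  The
functions `(x - θ)/(x - θ')` have `ℓ`-th roots in `F_U`.  By Kummer theory (Hilbert 90 for the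
action of `G_S` through `s`) they are `c(θ, θ') β^ℓ` with a constant `c(θ, θ')` in `S` and `β` fixed
by `s(G_S)`, and `n(θ, θ') = v(c(θ, θ'))` is well-defined modulo `ℓ`, additive, and invariant under
a Frobenius element.  The equation of the curve shows that the sum over `θ` of the `n(θ, θ')` is
`v(a)` modulo `ℓ`.  As Frobenius permutes the `ℓ` roots cyclically and `ℓ` is odd, this sum is `0`
modulo `ℓ`, a contradiction.  Finally, by Chebotarev's theorem the sum of the `1/N v` over the primes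
`v` in question diverges, and this implies that almost all triples satisfy the conditions at one of
them.
-/

open Polynomial NumberField IsDedekindDomain

namespace Pool.Agent.Results.MP_c1dca2_ag.DiagonalCurves

universe u v w

section definitions

variable (k : Type u) (F : Type v) (Ω : Type w) [Field k] [Field F] [Field Ω] [Algebra k F]
  [Algebra F Ω] [Algebra k Ω]

/-- The inertia group of the valuation ring `W` of `Ω`, as a subgroup of `Gal(Ω/F)`: the
automorphisms of `Ω` over `F` that map `W` onto itself and act as the identity on its residue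
field. -/
noncomputable def inertia (W : ValuationSubring Ω) : Subgroup (Ω ≃ₐ[F] Ω) :=
  (W.inertiaSubgroup F).map (W.decompositionSubgroup F).subtype

/-- `F_U`, for a set `U` of valuation rings of `F`: the elements of `Ω` fixed by the inertia groups
of all valuation rings `W` of `Ω` with `W ∩ F ∈ U`.  If `Ω` is an algebraic closure of a field `F`
of characteristic zero, this is the maximal extension of `F` in `Ω` unramified over `U`. -/
noncomputable def unramified (U : Set (ValuationSubring F)) : IntermediateField F Ω :=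
  ⨅ W : {W : ValuationSubring Ω // W.comap (algebraMap F Ω) ∈ U},
    IntermediateField.fixedField (inertia F Ω W.1)

/-- The map `τ : M → M` acts as `σ : K → K` on the elements that the fields `K` and `M` have in
common when they are regarded as subfields of `Ω` through `i` and `j`. -/
def ActsAs {K M Ω : Type*} [Field K] [Field M] [Field Ω] (i : K →+* Ω) (j : M →+* Ω) (σ : K → K)
    (τ : M → M) : Prop :=
  ∀ c z, j z = i c → j (τ z) = i (σ c)

/-- Let `k ⊆ K ⊆ Ω` and `F ⊆ M ⊆ Ω` be fields.  A splitting of `Gal(M/F) → Gal(K/k)`: a continuous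
homomorphism `s` from `Gal(K/k)` to `Gal(M/F)` such that `s(σ)` acts as `σ` on the elements of
`K ∩ M`. -/
structure Splitting (K M : Type*) [Field K] [Field M] [Algebra k K] [Algebra F M] [Algebra K Ω]
    [Algebra M Ω] where
  /-- the homomorphism `Gal(K/k) → Gal(M/F)` -/
  toHom : (K ≃ₐ[k] K) →* (M ≃ₐ[F] M)
  cont : Continuous toHom
  compat : ∀ σ : K ≃ₐ[k] K, ActsAs (algebraMap K Ω) (algebraMap M Ω) σ (toHom σ)

/-- The sections of `π₁(U) = Gal(F_U/F) → G_k`: the continuous homomorphisms `s` from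
`G_k = Gal(k̄/k)` to `Gal(F_U/F)`, where `k̄` is the algebraic closure of `k` in `Ω`, such that
`s(σ)` acts as `σ` on the elements of `k̄`. -/
def GaloisSection (U : Set (ValuationSubring F)) : Type w :=
  Splitting k F Ω (algebraicClosure k Ω) (unramified F Ω U)

end definitions

/-- The smooth projective curve with the affine equation `a yⁿ = b xᵐ + c` has no point over `k`:
neither in the affine part nor at infinity. -/
def NoPoint {k : Type u} [Field k] (n m : ℕ) (a b c : k) : Prop :=
  (¬ ∃ x y : k, a * y ^ n = b * x ^ m + c) ∧ ¬ ∃ r : k, a * r ^ Nat.gcd n m = b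

/-- Let `F` be any field over `k` that contains a point `(x, y)` of the curve `a yⁿ = b xᵐ + c`, for
instance the function field of the curve, and let `Ω` be an algebraic closure of `F`.  Then for
every set `U` of valuation rings of `F` over `k` there is no section of `π₁(U) → G_k`.  If `F` is the
function field of the curve, such `U` are given by the smooth projective curve and by all its open
subcurves. -/
def NoSection {k : Type u} [Field k] (n m : ℕ) (a b c : k) : Prop :=
  ∀ (F : Type v) (Ω : Type w) [Field F] [Field Ω] [Algebra k F] [Algebra F Ω] [Algebra k Ω]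
    [IsScalarTower k F Ω] [IsAlgClosure F Ω] (x y : F) (U : Set (ValuationSubring F)),
    algebraMap k F a * y ^ n = algebraMap k F b * x ^ m + algebraMap k F c →
    (∀ O ∈ U, ∀ c : k, algebraMap k F c ∈ O) → IsEmpty (GaloisSection k F Ω U)

/-- The triples `(a, b, c)` of integers of `K` such that `abc = 0` or the curve `a yⁿ = b xᵐ + c` has
a point or a section. -/
def Exceptional (K : Type u) [Field K] (n m : ℕ) : Set (Fin 3 → 𝓞 K) :=
  {t | ¬ ((∀ i, t i ≠ 0) ∧ NoPoint n m (t 0 : K) (t 1 : K) (t 2 : K) ∧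
    NoSection.{u, v, w} n m (t 0 : K) (t 1 : K) (t 2 : K))}

/-- Density zero: for every `ε > 0` there is an ideal `I ≠ 0` such that `E` lies in at most
`ε #(O_K/I)³` residue classes modulo `I`. -/
def DensityZero {K : Type u} [Field K] (E : Set (Fin 3 → 𝓞 K)) : Prop :=
  ∀ ε : ℝ, 0 < ε → ∃ I : Ideal (𝓞 K), I ≠ ⊥ ∧
    (Set.ncard ((fun (t : Fin 3 → 𝓞 K) i => Ideal.Quotient.mk I (t i)) '' E) : ℝ) ≤
      ε * (Nat.card (𝓞 K ⧸ I) : ℝ) ^ 3

section proof

open Pool.Agent.TH120.Sec

lemma toSec {k : Type u} {F : Type v} {Ω : Type w} [Field k] [Field F] [Field Ω] [Algebra k F]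
    [Algebra F Ω] [Algebra k Ω] (U : Set (ValuationSubring F))
    (h : IsEmpty (Pool.Agent.W620.SC.GSection k F Ω U)) : IsEmpty (GaloisSection k F Ω U) :=
  ⟨fun s => h.false ⟨s.toHom, s.cont, s.compat⟩⟩

lemma good_iff {K : Type u} [Field K] [NumberField K] (v : HeightOneSpectrum (𝓞 K)) (M : ℕ)
    (t : Fin 3 → 𝓞 K) (ht : red (v.asIdeal ^ 2) 3 t ∈ Good v M) :
    t 0 ∈ v.asIdeal ∧ t 0 ∉ v.asIdeal ^ 2 ∧ t 1 ∉ v.asIdeal ∧
      ∀ r : 𝓞 K, t 1 * r ^ M + t 2 ∉ v.asIdeal := by
  obtain ⟨h1, h2, h3, h4⟩ := ht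
  refine ⟨?_, ?_, ?_, ?_⟩
  · exact Ideal.Quotient.eq_zero_iff_mem.1 h1
  · exact fun h => h2 (Ideal.Quotient.eq_zero_iff_mem.2 h)
  · exact fun h => h3 (Ideal.Quotient.eq_zero_iff_mem.2 h)
  · intro r h
    apply h4 (Ideal.Quotient.mk _ r)
    exact Ideal.Quotient.eq_zero_iff_mem.2 h

lemma ne_of {K : Type u} [Field K] [NumberField K] (v : HeightOneSpectrum (𝓞 K)) (M : ℕ)
    (hM : M ≠ 0) (t : Fin 3 → 𝓞 K) (h0 : t 0 ∉ v.asIdeal ^ 2) (h1 : t 1 ∉ v.asIdeal)
    (h2 : ∀ r : 𝓞 K, t 1 * r ^ M + t 2 ∉ v.asIdeal) : ∀ i, t i ≠ 0 := by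
  have e0 : t 0 ≠ 0 := fun h => h0 (by rw [h]; exact zero_mem _)
  have e1 : t 1 ≠ 0 := fun h => h1 (by rw [h]; exact zero_mem _)
  have e2 : t 2 ≠ 0 := fun h => h2 0 (by rw [h, zero_pow hM, mul_zero, add_zero]; exact zero_mem _)
  intro i
  fin_cases i
  · exact e0
  · exact e1
  · exact e2

/-- exchange of the variables -/
def swp {R : Type u} [Ring R] (t : Fin 3 → R) : Fin 3 → R := ![t 1, t 0, -t 2]

lemma swp_inj {R : Type u} [Ring R] : Function.Injective (swp (R := R)) := by
  intro t t' h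
  have h0 : t 1 = t' 1 := congrFun h 0
  have h1 : t 0 = t' 0 := congrFun h 1
  have h2 : -t 2 = -t' 2 := congrFun h 2
  funext i
  fin_cases i
  · exact h1
  · exact h0
  · exact neg_injective h2

lemma dz_swp {K : Type u} [Field K] (E : Set (Fin 3 → 𝓞 K)) (h : DZ 3 (swp '' E)) : DZ 3 E := by
  intro ε hε
  obtain ⟨I, hI, h1⟩ := h ε hε
  refine ⟨I, hI, ?_⟩
  have h2 : red I 3 '' (swp '' E) = swp '' (red I 3 '' E) := by
    rw [Set.image_image, Set.image_image]
    refine Set.image_congr fun t _ => ?_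
    funext i
    fin_cases i
    · rfl
    · rfl
    · exact map_neg _ _
  rw [h2, Set.ncard_image_of_injective _ swp_inj] at h1
  exact h1

lemma even_case {K : Type u} [Field K] [NumberField K] (v : HeightOneSpectrum (𝓞 K)) (n m : ℕ)
    (hn : Even n) (hm : Even m) (hm4 : 4 ≤ m) (hv : ((2 * m : ℕ) : 𝓞 K) ∉ v.asIdeal)
    (t : Fin 3 → 𝓞 K) (ht : red (v.asIdeal ^ 2) 3 t ∈ Good v 2) : t ∉ Exceptional.{u, v, w} K n m := by
  have h2 : (2 : 𝓞 K) ∉ v.asIdeal := by
    intro h
    apply hv
    rw [Nat.cast_mul, Nat.cast_ofNat]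
    exact Ideal.mul_mem_right _ _ h
  have hmv : (m : 𝓞 K) ∉ v.asIdeal := by
    intro h
    apply hv
    rw [Nat.cast_mul]
    exact Ideal.mul_mem_left _ _ h
  obtain ⟨e0, e1, e2, e3⟩ := good_iff v 2 t ht
  obtain ⟨n', rfl⟩ := hn
  intro hE
  apply hE
  refine ⟨ne_of v 2 two_ne_zero t e1 e2 e3, ⟨?_, ?_⟩, ?_⟩
  · rintro ⟨x, y, hxy⟩
    refine diag_even_point v m hm4 hm h2 hmv (t 0) (t 1) (t 2) e0 e1 e2 e3 x (y ^ n') ?_
    rw [← pow_mul, mul_two, hxy]
  · rintro ⟨r, hr⟩
    have hg : 2 ∣ Nat.gcd (n' + n') m :=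
      Nat.dvd_gcd ⟨n', by ring⟩ (even_iff_two_dvd.1 hm)
    obtain ⟨g, hg⟩ := hg
    refine even_infinite v m hm4 hm h2 hmv (t 0) (t 1) (t 2) e0 e1 e2 e3 (r ^ g) ?_
    rw [← pow_mul, mul_comm g 2, ← hg, hr]
  · intro F Ω _ _ _ _ _ _ _ x y U hxy hU
    have hcl : IsAlgClosed Ω := IsAlgClosure.isAlgClosed F
    have halg : Algebra.IsAlgebraic F Ω := IsAlgClosure.isAlgebraic
    refine toSec U (diag_even_section v m hm4 hm h2 hmv (t 0) (t 1) (t 2) e0 e1 e2 e3 U hU x
      (y ^ n') ?_)
    rw [← pow_mul, mul_two, hxy]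

lemma swp_case {K : Type u} [Field K] [NumberField K] (v : HeightOneSpectrum (𝓞 K)) (n : ℕ)
    (hn : Even n) (hn4 : 4 ≤ n) (hv : ((2 * n : ℕ) : 𝓞 K) ∉ v.asIdeal)
    (t : Fin 3 → 𝓞 K) (ht : red (v.asIdeal ^ 2) 3 (swp t) ∈ Good v 2) :
    t ∉ Exceptional.{u, v, w} K n 2 := by
  have h2 : (2 : 𝓞 K) ∉ v.asIdeal := by
    intro h
    apply hv
    rw [Nat.cast_mul, Nat.cast_ofNat]
    exact Ideal.mul_mem_right _ _ h
  have hmv : (n : 𝓞 K) ∉ v.asIdeal := by
    intro h
    apply hv
    rw [Nat.cast_mul]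
    exact Ideal.mul_mem_left _ _ h
  obtain ⟨e0, e1, e2, e3⟩ := good_iff v 2 (swp t) ht
  have f0 : t 1 ∈ v.asIdeal := e0
  have f1 : t 1 ∉ v.asIdeal ^ 2 := e1
  have f2 : t 0 ∉ v.asIdeal := e2
  have f3 : ∀ r : 𝓞 K, t 0 * r ^ 2 + -t 2 ∉ v.asIdeal := e3
  have hne := ne_of v 2 two_ne_zero (swp t) e1 e2 e3
  have g0 : t 0 ≠ 0 := hne 1
  have g1 : t 1 ≠ 0 := hne 0
  have g2 : t 2 ≠ 0 := fun h => hne 2 (by change -t 2 = 0; rw [h, neg_zero])
  have hinj : Function.Injective (algebraMap (𝓞 K) K) := IsFractionRing.injective (𝓞 K) K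
  have hneg : ((-t 2 : 𝓞 K) : K) = -(t 2 : K) := map_neg (algebraMap (𝓞 K) K) _
  intro hE
  apply hE
  refine ⟨fun i => ?_, ⟨?_, ?_⟩, ?_⟩
  · fin_cases i
    · exact g0
    · exact g1
    · exact g2
  · rintro ⟨x, y, hxy⟩
    refine diag_even_point v n hn4 hn h2 hmv (t 1) (t 0) (-t 2) f0 f1 f2 f3 y x ?_
    rw [hxy, hneg]
    ring
  · rintro ⟨r, hr⟩
    have hg : Nat.gcd n 2 = 2 := Nat.gcd_eq_right (even_iff_two_dvd.1 hn)
    rw [hg] at hr
    have hr0 : r ≠ 0 := by
      rintro rfl
      rw [zero_pow two_ne_zero, mul_zero] at hr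
      exact g1 (hinj (by rw [map_zero]; exact hr.symm))
    refine even_infinite v n hn4 hn h2 hmv (t 1) (t 0) (-t 2) f0 f1 f2 f3 r⁻¹ ?_
    rw [← hr]
    field_simp
  · intro F Ω _ _ _ _ _ _ _ x y U hxy hU
    have hcl : IsAlgClosed Ω := IsAlgClosure.isAlgClosed F
    have halg : Algebra.IsAlgebraic F Ω := IsAlgClosure.isAlgebraic
    refine toSec U (diag_even_section v n hn4 hn h2 hmv (t 1) (t 0) (-t 2) f0 f1 f2 f3 U hU y
      x ?_)
    rw [hxy, hneg, map_neg]
    ring

lemma odd_case {K : Type u} [Field K] [NumberField K] (v : HeightOneSpectrum (𝓞 K)) (n m : ℕ)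
    (ℓ : ℕ) (hℓ : ℓ.Prime) (hodd : ℓ ≠ 2) (hn : ℓ ∣ n) (hm : ℓ ∣ m)
    (hv : ℓ ∣ Ideal.absNorm v.asIdeal - 1)
    (t : Fin 3 → 𝓞 K) (ht : red (v.asIdeal ^ 2) 3 t ∈ Good v ℓ) :
    t ∉ Exceptional.{u, v, w} K n m := by
  obtain ⟨e0, e1, e2, e3⟩ := good_iff v ℓ t ht
  have hg : ℓ ∣ Nat.gcd n m := Nat.dvd_gcd hn hm
  obtain ⟨n', rfl⟩ := hn
  obtain ⟨m', rfl⟩ := hm
  intro hE
  apply hE
  refine ⟨ne_of v ℓ hℓ.ne_zero t e1 e2 e3, ⟨?_, ?_⟩, ?_⟩
  · rintro ⟨x, y, hxy⟩
    refine diag_odd_point v ℓ hℓ hodd hv (t 0) (t 1) (t 2) e0 e1 e2 e3 (x ^ m') (y ^ n') ?_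
    rw [← pow_mul, ← pow_mul, mul_comm n' ℓ, mul_comm m' ℓ, hxy]
  · rintro ⟨r, hr⟩
    obtain ⟨g, hg⟩ := hg
    refine odd_infinite v ℓ hℓ hodd hv (t 0) (t 1) e0 e1 e2 (r ^ g) ?_
    rw [← pow_mul, mul_comm g ℓ, ← hg, hr]
  · intro F Ω _ _ _ _ _ _ _ x y U hxy hU
    have hcl : IsAlgClosed Ω := IsAlgClosure.isAlgClosed F
    have halg : Algebra.IsAlgebraic F Ω := IsAlgClosure.isAlgebraic
    refine toSec U (diag_odd_section v ℓ hℓ hodd hv (t 0) (t 1) (t 2) e0 e1 e2 e3 U hU (x ^ m')
      (y ^ n') ?_)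
    rw [← pow_mul, ← pow_mul, mul_comm n' ℓ, mul_comm m' ℓ, hxy]

lemma dz {K : Type u} [Field K] [NumberField K] (M : ℕ) (hM : M.Prime) (D : 𝓞 K) (hD : D ≠ 0)
    (E : Set (Fin 3 → 𝓞 K)) (hE : ∀ t ∈ E, ∀ v : HeightOneSpectrum (𝓞 K),
      D ∉ v.asIdeal → M ∣ Ideal.absNorm v.asIdeal - 1 → red (v.asIdeal ^ 2) 3 t ∉ Good v M) :
    DZ 3 E :=
  dz_of_supply 3 (fun v => D ∉ v.asIdeal ∧ M ∣ Ideal.absNorm v.asIdeal - 1)
    (fun v => (Good v M)ᶜ) (1 / 8)
    (fun ε hε => supply_split M hM D hD (1 / 8) (by norm_num) (by norm_num) ε hε)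
    (fun v hv => bad_card v M hM hv.2) E (fun t ht v hv => hE t ht v hv.1 hv.2)

end proof

/-- Let `K` be a number field and `n, m` positive integers which are not coprime and not both equal
to `2`.  For all triples `(a, b, c)` of integers of `K` outside a set of density zero, `abc ≠ 0`, the
smooth projective curve with the affine equation `a yⁿ = b xᵐ + c` has no point over `K`, and the
fundamental groups of its open subcurves and of all smooth curves over `K` that dominate it have no
sections. -/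
theorem result (K : Type u) [Field K] [NumberField K] (n m : ℕ) (hn : 0 < n) (hm : 0 < m)
    (hnm : ¬ Nat.Coprime n m) (h22 : ¬ (n = 2 ∧ m = 2)) :
    DensityZero (Exceptional.{u, v, w} K n m) := by
  have key : Pool.Agent.TH120.Sec.DZ 3 (Exceptional.{u, v, w} K n m) := by
    by_cases hodd : ∃ ℓ : ℕ, ℓ.Prime ∧ ℓ ≠ 2 ∧ ℓ ∣ Nat.gcd n m
    · obtain ⟨ℓ, hℓ, hℓ2, hd⟩ := hodd
      refine dz ℓ hℓ 1 one_ne_zero _ fun t ht v _ hv hgood => ?_
      exact odd_case v n m ℓ hℓ hℓ2 (hd.trans (Nat.gcd_dvd_left n m))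
        (hd.trans (Nat.gcd_dvd_right n m)) hv t hgood ht
    · push Not at hodd
      obtain ⟨ℓ, hℓ, hd⟩ := Nat.exists_prime_and_dvd hnm
      have hℓ2 : ℓ = 2 := by
        by_contra h
        exact hodd ℓ hℓ h hd
      rw [hℓ2] at hd
      have hne : Even n := even_iff_two_dvd.2 (hd.trans (Nat.gcd_dvd_left n m))
      have hme : Even m := even_iff_two_dvd.2 (hd.trans (Nat.gcd_dvd_right n m))
      have hcast : ∀ j : ℕ, 0 < j → ((2 * j : ℕ) : 𝓞 K) ≠ 0 := fun j hj =>
        Nat.cast_ne_zero.2 (by omega)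
      by_cases hm4 : 4 ≤ m
      · refine dz 2 Nat.prime_two _ (hcast m hm) _ fun t ht v hv _ hgood => ?_
        exact even_case v n m hne hme hm4 hv t hgood ht
      · have hm2 : m = 2 := by
          obtain ⟨j, hj⟩ := hme
          omega
        subst hm2
        have hn4 : 4 ≤ n := by
          obtain ⟨j, hj⟩ := hne
          omega
        refine dz_swp _ (dz 2 Nat.prime_two _ (hcast n hn) _ ?_)
        rintro _ ⟨t, ht, rfl⟩ v hv _ hgood
        exact swp_case v n hne hn4 hv t hgood ht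
  intro ε hε
  exact key ε hε

end Pool.Agent.Results.MP_c1dca2_ag.DiagonalCurves
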