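import Pool.Agent.TH377.NC.Vary
import Pool.Agent.TH377.Dyn.Dens
import Pool.Agent.TH377.Dyn.Box

/-!
# MP_c1dca2_ag: plane curves given by norm forms of all fields of degree `d`

Let `K` be a number field and `d ≥ 2`.  We consider all plane curves of degree `d` over `K` of the form

  `X : N_{E/K}(A₀ x₀ + A₁ x₁ + A₂ x₂) = a Q(x₀, x₁, x₂)ⁿ`,   `A₀, A₁, A₂ ∈ E`,  `a ∈ K`,

where `E = K(θ)` is ANY extension of degree `d`, `n | d`, and `Q` is a form of degree `d/n` over `K`.
These are the curves that have `d` conjugate lines `σ(A₀) x₀ + σ(A₁) x₁ + σ(A₂) x₂ = 0` meeting them with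
multiplicities divisible by `n`, for instance the plane quartics with four conjugate bitangents
(`d = 4`, `n = 2`).  We only assume that `Q` does not vanish at the points of intersection of the
conjugate lines, which is part of the smoothness of `X`.

Let `g = c₁ + c₂ T + … + c_{d+1} T^d` be the minimal polynomial of `θ`, with `c_i ∈ O_K`.  We prove:
100% of all vectors `(a, c₁, …, c_{d+1})` of integers of `K` have the following property.  The polynomial
`g` is irreducible of degree `d`, and for `E = K(θ)`, `θ` a root of `g`, for ALL `A ∈ E³`, ALL `n | d` and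
ALL forms `Q`, for ALL divisors `D` of `n` such that `gcd(2, D) D` divides `d`, and for ALL finite
extensions `L` of `K` with `D ∤ [L : K]`: the curve `X` has no point over `L`, and the fundamental group
of `X_L`, of each of its open subcurves and of all smooth curves (or varieties) over `L` that dominate
it or an open subcurve has no section over `G_L`.

The case `L = K` says that the section conjecture holds (without points and sections) for all these
curves `X`.  For `d = 4` all plane quartics with four conjugate bitangents are covered, so 100% of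
them, if they are ordered by the coefficients of the equation of a generator of the field `E` and by
`a`: they have no sections over all extensions of `K` of odd degree.  For odd `d` and `n = d` the degrees
of all fields over which there are sections or points are divisible by `d`.  In
`MP_2f3286_ag.NormCurves` the field `E` is fixed, and the exceptional set of numbers `a` depends on it;
neither result implies the other.

The exceptional set of vectors has density zero in boxes (with respect to any integral basis), and in a
stronger sense: for every `ε > 0` there is an ideal `I ≠ 0` such that the exceptional vectors lie in at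
most `ε #(O_K/I)^(d+2)` classes modulo `I`.

The fundamental group is described through valuations.  Let `U` be a smooth geometrically connected
curve over `k` with function field `F`, let `Ω` be an algebraic closure of `F`, and let `F_U` be the
maximal extension of `F` inside `Ω` which is unramified over the closed points of `U`, that is, over
their local rings, which are valuation rings of `F`.  Then `π₁(U) = Gal(F_U/F)`, and the map
`π₁(U) → G_k` is the restriction of automorphisms to the algebraic closure of `k` in `Ω`.

Proof.  For almost all vectors there is a prime `v` of `K` that divides `a` exactly once and such that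
`g` is irreducible of degree `d` modulo `v` (the proportion of these vectors modulo `v²` is at least
`(1/N v - 1/(N v)²)/(4d)`, and the sum of the `1/N v` diverges).  Let `l` be a prime number with
`v_l([L : K]) < v_l(D)`.  There is a place `w` of `L` over `v` with `v_l(e f) ≤ v_l([L : K])`, where
`e = e(w|v)` and `f = f(w|v)`; put `ℓ = l^(1 + v_l(e))`, a divisor of `D` and so of `n`.  Then
`ℓ ∤ w(a) = e`, and the orbits of the Frobenius element at `w` on the embeddings of `E` have lengths
`d/gcd(d, f)` divisible by `gcd(2, ℓ) ℓ`.  Let `s` be a section over `L_w`.  For two conjugate linear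
forms `λ_i`, `λ_j` the function `λ_i/λ_j` on `X` is an `ℓ`-th power up to units at all places, since at
each place all of the `λ_i` but at most one have the same value, and `∏ λ_i = a Qⁿ`.  So `λ_i/λ_j` has an
`ℓ`-th root in `F_U`, and by Kummer theory it is `c_{ij} β^ℓ` with a constant `c_{ij}` in the unramified
extension `S` of `L_w` generated by the conjugates of `E` and with `β` fixed by `s(G_S)`.  The numbers
`w(c_{ij})` modulo `ℓ` are well-defined, additive, and invariant under Frobenius, so the sum over `i` of
the `w(c_{ij})` is `0` modulo `ℓ`.  But the equation of the curve shows that it is `w(a) = e` modulo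
`ℓ`, a contradiction.
-/

set_option autoImplicit false
set_option maxHeartbeats 400000

open NumberField IsDedekindDomain Filter Topology

namespace Pool.Agent.Results.MP_c1dca2_ag.NormCurvesVaryingFields

universe u v w x y z

section definitions

variable (k : Type u) (F : Type v) (Ω : Type w) [Field k] [Field F] [Field Ω] [Algebra k F]
  [Algebra F Ω] [Algebra k Ω]

/-- The inertia group of the valuation ring `W` of `Ω`, as a subgroup of `Gal(Ω/F)`: the
automorphisms of `Ω` over `F` that map `W` onto itself and act as the identity on its residue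
field. -/
noncomputable def inertia (W : ValuationSubring Ω) : Subgroup (Ω ≃ₐ[F] Ω) :=
  (W.inertiaSubgroup F).map (W.decompositionSubgroup F).subtype

/-- `F_U`, for a set `U` of valuation rings of `F`: the elements of `Ω` fixed by the inertia groups
of all valuation rings `W` of `Ω` with `W ∩ F ∈ U`.  If `Ω` is an algebraic closure of a field `F`
of characteristic zero, this is the maximal extension of `F` in `Ω` unramified over `U`. -/
noncomputable def unramified (U : Set (ValuationSubring F)) : IntermediateField F Ω :=
  ⨅ W : {W : ValuationSubring Ω // W.comap (algebraMap F Ω) ∈ U},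
    IntermediateField.fixedField (inertia F Ω W.1)

/-- The map `τ : M → M` acts as `σ : K → K` on the elements that the fields `K` and `M` have in
common when they are regarded as subfields of `Ω` through `i` and `j`. -/
def ActsAs {K M Ω : Type*} [Field K] [Field M] [Field Ω] (i : K →+* Ω) (j : M →+* Ω) (σ : K → K)
    (τ : M → M) : Prop :=
  ∀ c z, j z = i c → j (τ z) = i (σ c)

/-- Let `k ⊆ K ⊆ Ω` and `F ⊆ M ⊆ Ω` be fields.  A splitting of `Gal(M/F) → Gal(K/k)`: a continuous
homomorphism `s` from `Gal(K/k)` to `Gal(M/F)` such that `s(σ)` acts as `σ` on the elements of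
`K ∩ M`. -/
structure Splitting (K M : Type*) [Field K] [Field M] [Algebra k K] [Algebra F M] [Algebra K Ω]
    [Algebra M Ω] where
  /-- the homomorphism `Gal(K/k) → Gal(M/F)` -/
  toHom : (K ≃ₐ[k] K) →* (M ≃ₐ[F] M)
  cont : Continuous toHom
  compat : ∀ σ : K ≃ₐ[k] K, ActsAs (algebraMap K Ω) (algebraMap M Ω) σ (toHom σ)

/-- The sections of `π₁(U) = Gal(F_U/F) → G_k`: the continuous homomorphisms `s` from
`G_k = Gal(k̄/k)` to `Gal(F_U/F)`, where `k̄` is the algebraic closure of `k` in `Ω`, such that
`s(σ)` acts as `σ` on the elements of `k̄`. -/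
def GaloisSection (U : Set (ValuationSubring F)) : Type w :=
  Splitting k F Ω (algebraicClosure k Ω) (unramified F Ω U)

end definitions

section curve

variable {K : Type u} {E : Type x} [Field K] [Field E] [Algebra K E] [FiniteDimensional K E]

/-- The equation `N_{E/K}(A₀ x₀ + A₁ x₁ + A₂ x₂) = a Q(x₀, x₁, x₂)ⁿ` at a vector with entries in an
algebraically closed field `Ω` over `K`: the norm is the product over the embeddings `σ` of `E` into
`Ω` of the `σ(A₀) x₀ + σ(A₁) x₁ + σ(A₂) x₂`. -/
def OnCurve {Ω : Type*} [Field Ω] [Algebra K Ω] (A : Fin 3 → E) (a : K)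
    (Q : MvPolynomial (Fin 3) K) (n : ℕ) (x : Fin 3 → Ω) : Prop :=
  ∏ σ : E →ₐ[K] Ω, ∑ j, σ (A j) * x j = algebraMap K Ω a * MvPolynomial.aeval x Q ^ n

/-- The form `Q` does not vanish at the points of intersection of two conjugate lines
`σ(A₀) x₀ + σ(A₁) x₁ + σ(A₂) x₂ = 0`.  (In particular these lines are different.) -/
def Transversal (A : Fin 3 → E) (Q : MvPolynomial (Fin 3) K) : Prop :=
  ∀ σ τ : E →ₐ[K] AlgebraicClosure K, σ ≠ τ →
    MvPolynomial.aeval (crossProduct (fun j => σ (A j)) (fun j => τ (A j))) Q ≠ 0

/-- The curve has no point over `L`. -/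
def NoPoint (L : Type y) [Field L] [Algebra K L] (A : Fin 3 → E) (a : K)
    (Q : MvPolynomial (Fin 3) K) (n : ℕ) : Prop :=
  ∀ x : Fin 3 → L, x ≠ 0 → ¬ OnCurve A a Q n fun j => algebraMap L (AlgebraicClosure L) (x j)

/-- Let `F` be any field over `L` that contains a point of the curve, for instance the function field
of the curve over `L`, and let `Ω` be an algebraic closure of `F`.  Then for every set `U` of
valuation rings of `F` over `L` there is no section of `π₁(U) → G_L`.  If `F` is the function field of
the curve, such `U` are given by its normalisation and by all its open subcurves. -/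
def NoSection (L : Type y) [Field L] [Algebra K L] (A : Fin 3 → E) (a : K)
    (Q : MvPolynomial (Fin 3) K) (n : ℕ) : Prop :=
  ∀ (F : Type v) (Ω : Type w) [Field F] [Field Ω] [Algebra L F] [Algebra F Ω] [Algebra L Ω]
    [Algebra K Ω] [IsScalarTower L F Ω] [IsScalarTower K L Ω] [IsAlgClosure F Ω] (x : Fin 3 → F)
    (U : Set (ValuationSubring F)), x ≠ 0 → OnCurve A a Q n (fun j => algebraMap F Ω (x j)) →
      (∀ O ∈ U, ∀ c : L, algebraMap L F c ∈ O) → IsEmpty (GaloisSection L F Ω U)

end curve

/-- The polynomial `g = c₁ + c₂ T + … + c_{d+1} T^d`. -/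
noncomputable def poly {R : Type u} [CommRing R] {d : ℕ} (c : Fin (d + 2) → R) : Polynomial R :=
  ∑ i : Fin (d + 1), Polynomial.C (c i.succ) * Polynomial.X ^ (i : ℕ)

/-- The vectors `c = (a, c₁, …, c_{d+1})` that do not have the following property: `a ≠ 0`, the
polynomial `g` is irreducible over `K` of degree `d`, and for all fields `E = K(θ)` generated by a root
`θ` of `g`, all `D` such that `gcd(2, D) D` divides `d`, all finite extensions `L` of `K` whose degree is
not divisible by `D`, all `n | d` divisible by `D`, all `A₀, A₁, A₂ ∈ E` and all forms `Q` of degree `d/n`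
over `K` that do not vanish at the points of intersection of the conjugate lines, the curve
`N_{E/K}(A₀ x₀ + A₁ x₁ + A₂ x₂) = a Qⁿ` has no point and no section over `L`. -/
def Exceptional (K : Type u) [Field K] (d : ℕ) : Set (Fin (d + 2) → 𝓞 K) :=
  {c | ¬ (c 0 ≠ 0 ∧ (poly c).natDegree = d ∧
    Irreducible ((poly c).map (algebraMap (𝓞 K) K)) ∧
    ∀ (E : Type x) [Field E] [Algebra K E] [FiniteDimensional K E] (θ : E),
      Algebra.adjoin K {θ} = ⊤ → Polynomial.aeval θ ((poly c).map (algebraMap (𝓞 K) K)) = 0 →
      ∀ D : ℕ, Nat.gcd 2 D * D ∣ d →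
      ∀ (L : Type y) [Field L] [Algebra K L] [FiniteDimensional K L], ¬ D ∣ Module.finrank K L →
      ∀ n q : ℕ, D ∣ n → n * q = d → ∀ (A : Fin 3 → E) (Q : MvPolynomial (Fin 3) K),
        Q.IsHomogeneous q → Transversal A Q →
          NoPoint L A (c 0 : K) Q n ∧ NoSection.{u, v, w} L A (c 0 : K) Q n)}

/-- Density zero: for every `ε > 0` there is an ideal `I ≠ 0` such that `S` lies in at most
`ε #(O_K/I)ᴺ` residue classes modulo `I`. -/
def DensityZero {K : Type u} [Field K] {N : ℕ} (S : Set (Fin N → 𝓞 K)) : Prop :=
  ∀ ε : ℝ, 0 < ε → ∃ I : Ideal (𝓞 K), I ≠ ⊥ ∧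
    (Set.ncard ((fun (t : Fin N → 𝓞 K) i => Ideal.Quotient.mk I (t i)) '' S) : ℝ) ≤
      ε * (Nat.card (𝓞 K ⧸ I) : ℝ) ^ N

/-- The vectors all of whose entries have coordinates of absolute value at most `H` in the integral
basis `ω`. -/
def Box {K : Type u} [Field K] {J : Type z} (ω : Module.Basis J ℤ (𝓞 K)) (N H : ℕ) :
    Set (Fin N → 𝓞 K) :=
  {c | ∀ i j, |ω.repr (c i) j| ≤ (H : ℤ)}

section proof

open Pool.Agent.TH377.NC Pool.Agent.TH120.Sec Pool.Agent.TH377.Sup Polynomial

lemma toSec {k : Type u} {F : Type v} {Ω : Type w} [Field k] [Field F] [Field Ω] [Algebra k F]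
    [Algebra F Ω] [Algebra k Ω] (U : Set (ValuationSubring F))
    (h : IsEmpty (Pool.Agent.W620.SC.GSection k F Ω U)) : IsEmpty (GaloisSection k F Ω U) :=
  ⟨fun s => h.false ⟨s.toHom, s.cont, s.compat⟩⟩

/-- the property holds if there is a good prime -/
theorem good {K : Type u} [Field K] [NumberField K] {d : ℕ} (hd : 2 ≤ d)
    (c : Fin (d + 2) → 𝓞 K) (v : HeightOneSpectrum (𝓞 K)) (h1 : c 0 ∈ v.asIdeal)
    (h2 : c 0 ∉ v.asIdeal ^ 2) (h3 : IrrMod v d fun i => c i.succ) :
    c ∉ Exceptional.{u, v, w, x, y} K d := by
  intro hexc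
  apply hexc
  have hlast : c (Fin.last d).succ ≠ 0 := by
    intro h
    apply h3.1
    change c (Fin.last d).succ ∈ v.asIdeal
    rw [h]
    exact zero_mem _
  have hdeg : (poly c).natDegree = d := pol_natDegree (fun i : Fin (d + 1) => c i.succ) hlast
  have hlc : (poly c).leadingCoeff ∉ v.asIdeal := by
    have e1 : (poly c).leadingCoeff = c (Fin.last d).succ :=
      pol_leadingCoeff (fun i : Fin (d + 1) => c i.succ) hlast
    rw [e1]
    exact h3.1
  have hirr : Irreducible ((poly c).map (Ideal.Quotient.mk v.asIdeal)) := by
    have h5 : (poly c).map (Ideal.Quotient.mk v.asIdeal) =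
        pol fun i : Fin (d + 1) => Ideal.Quotient.mk v.asIdeal (c i.succ) := pol_map _ _
    rw [h5]
    exact h3.2
  have hirrK : Irreducible ((poly c).map (algebraMap (𝓞 K) K)) :=
    Pool.Agent.TH377.Hyp.irr_of_mod v (poly c) (by omega) hlc hirr
  refine ⟨?_, hdeg, hirrK, ?_⟩
  · intro h
    rw [h] at h2
    exact h2 (zero_mem _)
  intro E _ _ _ θ hθ hroot D hD L _ _ _ hL n q hDn hnq A Q hQ htr
  obtain ⟨pb, hpb, hfin⟩ := pb_of_root θ hθ _ hirrK hroot
  obtain ⟨R, _, _, _, _, hfr, f, ϖ, t, hf, hfK, hfs, hfd, hϖ, ht, hat⟩ :=
    vary v (poly c) d hdeg hlc hirr (c 0) h1 h2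
  have hdK : ((poly c).map (algebraMap (𝓞 K) K)).natDegree = d := by
    rw [natDegree_map_eq_of_injective (FaithfulSMul.algebraMap_injective (𝓞 K) K), hdeg]
  have hD0 : D ≠ 0 := by
    rintro rfl
    rw [mul_zero, Nat.zero_dvd] at hD
    omega
  have htr' : ∀ σ τ : E →ₐ[K] AlgebraicClosure K, σ ≠ τ →
      MvPolynomial.aeval (crossProduct (fun j => σ (A j)) (fun j => τ (A j))) Q ≠ 0 := htr
  have hL' : ¬ (D : ℤ) ∣ 1 * (Module.finrank K L : ℤ) := by
    rw [one_mul, Int.natCast_dvd_natCast]
    exact hL
  have hat' : (c 0 : K) = algebraMap R K t * algebraMap R K ϖ ^ (1 : ℤ) := hat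
  obtain ⟨key1, key2⟩ := gen_both (K := K) (L := L) D hD0 pb f hf (hfK.trans hpb.symm) hfs
    (hfd _ hD) ϖ t hϖ ht 1 hL' (c 0 : K) hat' n q hDn (by rw [hfin, hdK, hnq]) A Q hQ htr'
  refine ⟨fun x hx hon => key1 x hx hon, ?_⟩
  intro F Ω _ _ _ _ _ _ _ _ _ x U hx hon hU
  exact toSec U (key2 F Ω x U hx hon hU)

end proof

/-- Let `K` be a number field and `d ≥ 2`.  For all vectors `(a, c₁, …, c_{d+1})` of integers of `K`
outside a set of density zero, the polynomial `g = c₁ + c₂ T + … + c_{d+1} T^d` is irreducible of degree
`d`, and for `E = K(θ)`, `θ` a root of `g`, all `D` such that `gcd(2, D) D` divides `d`, all finite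
extensions `L` of `K` with `D ∤ [L : K]`, all `n | d` divisible by `D`, all `A₀, A₁, A₂ ∈ E` and all forms
`Q` of degree `d/n` over `K` that do not vanish at the points of intersection of the conjugate lines,
the plane curve `N_{E/K}(A₀ x₀ + A₁ x₁ + A₂ x₂) = a Q(x₀, x₁, x₂)ⁿ` has no point over `L`, and the
fundamental groups of its open subcurves over `L` and of all smooth curves over `L` that dominate it
have no sections over `G_L`. -/
theorem result (K : Type u) [Field K] [NumberField K] (d : ℕ) (hd : 2 ≤ d) :
    DensityZero (Exceptional.{u, v, w, x, y} K d) ∧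
      ∀ (J : Type z) [Fintype J] (ω : Module.Basis J ℤ (𝓞 K)),
        Tendsto (fun H : ℕ => ((Exceptional.{u, v, w, x, y} K d ∩ Box ω (d + 2) H).ncard : ℝ) /
          ((Box ω (d + 2) H).ncard : ℝ)) atTop (𝓝 0) := by
  have key : Pool.Agent.TH120.Sec.DZ (d + 2) (Exceptional.{u, v, w, x, y} K d) := by
    refine Pool.Agent.TH377.Dyn.DZ.mono (Pool.Agent.TH377.Dyn.dz_prime K d hd 1 one_ne_zero) ?_
    rintro c hc ⟨v, -, h1, h2, h3⟩
    exact good hd c v h1 h2 h3 hc
  exact ⟨key, fun J _ ω => Pool.Agent.TH377.Dyn.box_tendsto _ key ω⟩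

end Pool.Agent.Results.MP_c1dca2_ag.NormCurvesVaryingFields
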