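import Pool.Agent.TH954.P.Thm

/-!
# Sections of fundamental groups of open curves over powers of elliptic curves of rank one

Let `E` be an elliptic curve over a number field `K` such that `E(K)` has rank at most one over the
ring of `K`-endomorphisms of `E` and the Tate-Shafarevich group of `E` over `K` is killed by some
`M₀ ≥ 1`, and let `X` be a closed subvariety of `Eⁿ` with only finitely many `K`-rational points, for
instance a curve of genus at least two. Let `F` be the function field of a smooth complete curve `Y`
over `K` with a nonconstant map to `X`, that is, with a point `P ∈ X(F)` which is not in `Eⁿ(K)`. The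
closed points of `Y` are the valuation rings of `F` over `K` other than `F`.

There is a finite set `D` of closed points of `Y`, none of which is `K`-rational, such that the
following holds for the open curve `U = Y ∖ D` and for each open curve `C` contained in `U`. Let `F_C`
be the maximal extension of `F` in an algebraic closure `Ω` of `F` which is unramified over the points
of `C`, so that `π₁(C) = Gal(F_C/F)`. Consider a section `s` of the map from `π₁(C)` to the absolute
Galois group of `K` which is given over the completion of `K` at each finite place `v` by a point, that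
is, by a place `p v` of `F_C` with values in an algebraic closure of the completion. Then there is a
`K`-rational point `O` of `Y` such that all the local points `p v` lie over `O`. Also, there is a
`K`-rational point `x` of `X` which is the image of each of the local points, and the image of `s` in
`π₁(Eⁿ)` is the one given by `x`.

In particular, if `Y` has no `K`-rational point then the fundamental group of the open curve `C` has no
section which is given by local points at all the finite places of `K`.

The field `M` in the theorem can be any extension of `F` which embeds in `Ω` and contains `F_C`.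
-/

open IsDedekindDomain NumberField Pool.Agent.TH954 Pool.Agent.W620.SC

open scoped Classical in
theorem Pool.Agent.Results.MP_c1dca2_ag.PuncturedCurves.result
    (K : Type) [Field K] [NumberField K] (E : WeierstrassCurve K)
    (hE : ShortIntegral E) (hO : SmallRank E) (M₀ : ℕ) (hM1 : 1 ≤ M₀) (hM : ShaKilledBy E M₀)
    (n : ℕ) (S : Set (MvPolynomial (Fin n × Fin 3) K)) (hS : ∀ f ∈ S, ∃ d, MultiHom d f)
    (hX : {y : Fin n → E.toAffine.Point | OnX S (fun i => crd (y i))}.Finite)
    (F : Type) [Field F] [Algebra K F] (hfg : (⊤ : IntermediateField K F).FG)
    (hF : ∃ t : F, Transcendental K t ∧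
      Algebra.IsAlgebraic (IntermediateField.adjoin K {t}) F)
    (P : Fin n → (E.baseChange F).toAffine.Point)
    (hPS : OnX S (fun i => crd (P i)))
    (hPn : ∃ i, ∀ y : E.toAffine.Point, P i ≠ locHom (L := F) E y) :
    ∃ D : Set (ValuationSubring F), D.Finite ∧
      (∀ O ∈ D, O ≠ ⊤ ∧ (∀ c : K, algebraMap K F c ∈ O) ∧
        ∃ a ∈ O, ∀ c : K, ¬ O.valuation (a - algebraMap K F c) < 1) ∧
      ∀ C : Set (ValuationSubring F), (∀ O ∈ C, ∀ c : K, algebraMap K F c ∈ O) → Disjoint C D →
      ∀ (Ω M B : Type) [Field Ω] [Field M] [Field B] [Algebra F Ω] [Algebra K Ω]
        [IsScalarTower K F Ω] [IsAlgClosure F Ω] [Algebra F M] [Algebra K M]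
        [IsScalarTower K F M] [Algebra K B] [IsAlgClosure K B] (e : M →ₐ[F] Ω),
      unramified F Ω C ≤ e.fieldRange → ∀ (s : GalSection K F M B)
        (p : ∀ v : HeightOneSpectrum (𝓞 K), Plc K M (AlgebraicClosure (v.adicCompletion K))),
      (∀ v, s.GivenBy (v.adicCompletion K) (p v)) →
      ∃ (x : Fin n → E.toAffine.Point) (O : ValuationSubring F),
        OnX S (fun i => crd (x i)) ∧
        (∀ v i, (p v).Spec (fun j => algebraMap F M (crd (P i) j))
          (fun j => algebraMap K (AlgebraicClosure (v.adicCompletion K)) (crd (x i) j))) ∧
        (∀ i, s.SameKummer E (P i) (x i)) ∧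
        O ≠ ⊤ ∧ (∀ c : K, algebraMap K F c ∈ O) ∧
        (∀ a ∈ O, ∃ c : K, O.valuation (a - algebraMap K F c) < 1) ∧
        ∀ v, (p v).W.comap (algebraMap F M) = O :=
  Pool.Agent.TH954.P.punct2_main K E hE hO M₀ hM1 hM n S hS hX F hfg hF P hPS hPn
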